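import Pool.Agent.W956.MM.Defs
import Pool.Agent.NPC.Sat2

/-!
# The graph of a formula
-/

namespace Pool.Agent.W956.MM

open Pool.Agent.NPC Pool.Agent.NPC.R671

/-- formulas -/
abbrev Φ : Type := List (Lit ℕ × Lit ℕ × Lit ℕ)

/-- the literal at the occurrence number `o` -/
def lit (φ : Φ) (o : ℕ) : Lit ℕ :=
  if o % 3 = 0 then (φ.getD (o / 3) ((false, 0), (false, 0), (false, 0))).1 else
    if o % 3 = 1 then (φ.getD (o / 3) ((false, 0), (false, 0), (false, 0))).2.1 else
      (φ.getD (o / 3) ((false, 0), (false, 0), (false, 0))).2.2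

/-- adjacency of labels, one direction.
Labels: `(0, i)` junctions of the variable line, `(1, i)` and `(2, i)` the vertices for the
values true and false of the variable `i`, `(3, q)` junctions of the clause line, `(4, o)` the
vertices of the occurrences, `(5, o)` the vertices of the conflicts, `(6, 0)` and `(7, 0)` -/
def ad0 (φ : Φ) (a b : ℕ × ℕ) : Bool :=
  (decide (a.1 = 0) && (decide (b.1 = 1) && decide (b.2 = a.2))) ||
  ((decide (a.1 = 0) && (decide (b.1 = 2) && decide (b.2 = a.2))) ||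
  ((decide (a.1 = 1) && (decide (b.1 = 0) && decide (b.2 = a.2 + 1))) ||
  ((decide (a.1 = 2) && (decide (b.1 = 0) && decide (b.2 = a.2 + 1))) ||
  ((decide (a.1 = 3) && (decide (b.1 = 4) && decide (b.2 / 3 = a.2))) ||
  ((decide (a.1 = 4) && (decide (b.1 = 3) && decide (b.2 = a.2 / 3 + 1))) ||
  ((decide (a.1 = 4) && (decide (b.1 = 5) && decide (b.2 = a.2))) ||
  ((decide (a.1 = 1) && (decide (b.1 = 5) && decide (lit φ b.2 = (false, a.2)))) ||
  ((decide (a.1 = 2) && (decide (b.1 = 5) && decide (lit φ b.2 = (true, a.2)))) ||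
  ((decide (a.1 = 5) && decide (b.1 = 6)) ||
  (decide (a.1 = 6) && decide (b.1 = 7)))))))))))

/-- adjacency of labels -/
def ad (φ : Φ) (a b : ℕ × ℕ) : Bool := ad0 φ a b || ad0 φ b a

theorem ad_symm (φ : Φ) (a b : ℕ × ℕ) : ad φ a b = ad φ b a := by
  unfold ad
  exact Bool.or_comm _ _

theorem ad0_irrefl (φ : Φ) (a : ℕ × ℕ) : ad0 φ a a = false := by
  rw [← Bool.not_eq_true]
  simp only [ad0, Bool.or_eq_true, Bool.and_eq_true, decide_eq_true_eq]
  rintro (h | h | h | h | h | h | h | h | h | h | h) <;> omega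

theorem ad_irrefl (φ : Φ) (a : ℕ × ℕ) : ad φ a a = false := by
  unfold ad
  rw [ad0_irrefl, Bool.or_false]

/-- the labels that occur -/
def InV (m : ℕ) (z : ℕ × ℕ) : Prop :=
  (z.1 = 0 ∧ z.2 ≤ 3 * m) ∨ (z.1 = 1 ∧ z.2 < 3 * m) ∨ (z.1 = 2 ∧ z.2 < 3 * m) ∨
  (z.1 = 3 ∧ z.2 ≤ m) ∨ (z.1 = 4 ∧ z.2 < 3 * m) ∨ (z.1 = 5 ∧ z.2 < 3 * m) ∨ z = (6, 0) ∨ z = (7, 0)

/-- the labels in `A` -/
def InA (z : ℕ × ℕ) : Prop := z = (0, 0) ∨ z = (3, 0) ∨ z = (7, 0)

/-- the labels in `Z` -/
def InZ (m : ℕ) (z : ℕ × ℕ) : Prop := z = (0, 3 * m) ∨ z = (3, m) ∨ z = (7, 0)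

variable {V : Type} {φ : Φ} {G : SimpleGraph V} {l : V → ℕ × ℕ}

/-- A walk along which a function grows by at most one at each step hits all values. -/
theorem walk_hits (h : V → ℕ) : ∀ {u v : V} (p : G.Walk u v),
    (∀ x y, x ∈ p.support → y ∈ p.support → G.Adj x y → h y ≤ h x + 1) →
    ∀ n, h u ≤ n → n ≤ h v → ∃ w ∈ p.support, h w = n
  | u, _, .nil, _, n, h1, h2 => ⟨u, by simp, le_antisymm h1 h2⟩
  | u, v, .cons (v := w) e p, hp, n, h1, h2 => by
    by_cases h3 : h u = n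
    · exact ⟨u, by simp, h3⟩
    · have h4 : h w ≤ h u + 1 := hp u w (by simp) (by simp) e
      obtain ⟨x, hx, hx'⟩ := walk_hits h p (fun x y hx hy hxy =>
        hp x y (by simp [hx]) (by simp [hy]) hxy) n (by omega) h2
      exact ⟨x, by simp [hx], hx'⟩

/-- all vertices of a walk satisfy a property closed under the adjacency in the walk -/
theorem walk_closed (S T : V → Prop) : ∀ {u v : V} (p : G.Walk u v),
    (∀ x ∈ p.support, T x) → (∀ x y, T x → T y → G.Adj x y → S x → S y) → S u →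
    ∀ w ∈ p.support, S w
  | u, _, .nil, _, _, h1, w, hw => by
    simp only [SimpleGraph.Walk.support_nil, List.mem_singleton] at hw
    rw [hw]; exact h1
  | u, v, .cons (v := x) e p, hT, hS, h1, w, hw => by
    rw [SimpleGraph.Walk.support_cons, List.mem_cons] at hw
    rcases hw with rfl | hw
    · exact h1
    · exact walk_closed S T p (fun y hy => hT y (by simp [hy])) hS
        (hS u x (hT u (by simp)) (hT x (by simp)) e h1) w hw

/-- The part of the graph far from `(7, 0)`. -/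
def Out (z : ℕ × ℕ) : Prop := z.1 ≤ 4

/-- the position on the variable line -/
def hv (z : ℕ × ℕ) : ℕ := if z.1 = 0 then 2 * z.2 else 2 * z.2 + 1

/-- the position on the clause line -/
def hc (z : ℕ × ℕ) : ℕ := if z.1 = 3 then 2 * z.2 else 2 * (z.2 / 3) + 1

theorem far_symm {u v : V} (h : 3 ≤ G.edist u v) : 3 ≤ G.edist v u := by
  rwa [SimpleGraph.edist_comm]

theorem far_iff {u v : V} : 3 ≤ G.edist u v ↔
    u ≠ v ∧ ¬ G.Adj u v ∧ ∀ w, ¬ (G.Adj u w ∧ G.Adj w v) := by
  have h : 3 ≤ G.edist u v ↔ 2 < G.edist u v := by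
    rw [show (3 : ℕ∞) = 2 + 1 by norm_num, ENat.add_one_le_iff (by norm_num)]
  rw [h, SimpleGraph.two_lt_edist_iff]
  refine and_congr_right fun _ => and_congr_right fun _ => ?_
  rw [Set.eq_empty_iff_forall_notMem]
  refine forall_congr' fun w => not_congr ?_
  rw [SimpleGraph.mem_commonNeighbors]
  constructor
  · rintro ⟨h1, h2⟩; exact ⟨h1, h2.symm⟩
  · rintro ⟨h1, h2⟩; exact ⟨h1, h2.symm⟩

end Pool.Agent.W956.MM
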