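import Pool.Agent.W956.MM.Main

/-!
# The graph of a formula: paths from a satisfying assignment
-/

namespace Pool.Agent.W956.MM

open Pool.Agent.NPC Pool.Agent.NPC.R671

variable {V : Type} {φ : Φ} {G : SimpleGraph V} {l : V → ℕ × ℕ}

/-- there is a walk inside a set -/
def WalkIn (G : SimpleGraph V) (S : Set V) (u v : V) : Prop :=
  ∃ p : G.Walk u v, ∀ w ∈ p.support, w ∈ S

theorem WalkIn.refl {S : Set V} {u : V} (h : u ∈ S) : WalkIn G S u u :=
  ⟨.nil, by simpa using h⟩

theorem WalkIn.step {S : Set V} {u v w : V} (h : WalkIn G S u v) (ha : G.Adj v w) (hw : w ∈ S) :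
    WalkIn G S u w := by
  obtain ⟨p, hp⟩ := h
  refine ⟨p.concat ha, ?_⟩
  intro x hx
  rw [SimpleGraph.Walk.support_concat] at hx
  simp only [List.mem_append, List.mem_singleton] at hx
  rcases hx with hx | rfl
  · exact hp x hx
  · exact hw

theorem WalkIn.azPath {S A Z : Set V} {u v : V} (h : WalkIn G S u v) (hA : S ∩ A ⊆ {u})
    (hZ : S ∩ Z ⊆ {v}) (hu : u ∈ A) (hv : v ∈ Z) :
    ∃ p : G.Walk u v, IsAZPath A Z p ∧ ∀ w ∈ p.support, w ∈ S := by
  classical
  obtain ⟨p, hp⟩ := h
  have hs : ∀ w ∈ p.bypass.support, w ∈ S := fun w hw => hp w (p.support_bypass_subset_support hw)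
  refine ⟨p.bypass, ⟨p.bypass_isPath, ?_, ?_⟩, hs⟩
  · ext x
    constructor
    · rintro ⟨h1, h2⟩
      exact hA ⟨hs x h1, h2⟩
    · intro hx
      rw [Set.mem_singleton_iff] at hx
      subst hx
      exact ⟨p.bypass.start_mem_support, hu⟩
  · ext x
    constructor
    · rintro ⟨h1, h2⟩
      exact hZ ⟨hs x h1, h2⟩
    · intro hx
      rw [Set.mem_singleton_iff] at hx
      subst hx
      exact ⟨p.bypass.end_mem_support, hv⟩

/-- a satisfying assignment gives three far paths -/
theorem paths_of_sat (hφ : Bounded3 φ)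
    (hl : Function.Injective l) (hmem : ∀ z, InV φ.length z → ∃ x, l x = z)
    (hran : ∀ x, InV φ.length (l x))
    (hG : ∀ u v, G.Adj u v ↔ ad φ (l u) (l v) = true) (h : SAT3 φ) :
    ThreeFarPaths G {v | InA (l v)} {v | InZ φ.length (l v)} := by
  classical
  obtain ⟨τ, hτ⟩ := h
  set S : Set V := {x | (l x).1 = 0 ∨ ((l x).1 = 1 ∧ τ (l x).2 = true) ∨
    ((l x).1 = 2 ∧ τ (l x).2 = false)} with hS
  set S' : Set V := {x | (l x).1 = 3 ∨ ((l x).1 = 4 ∧
    τ (lit φ (l x).2).2 = (lit φ (l x).2).1)} with hS'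
  obtain ⟨r, hr⟩ := hmem (7, 0) (by simp [InV])
  obtain ⟨a, ha⟩ := hmem (0, 0) (by simp [InV])
  obtain ⟨b, hb⟩ := hmem (3, 0) (by simp [InV])
  have hw0 : ∀ i ≤ 3 * φ.length, ∀ x, l x = (0, i) → WalkIn G S a x := by
    intro i
    induction i with
    | zero =>
      intro _ x hx
      have : x = a := hl (hx.trans ha.symm)
      subst this
      exact WalkIn.refl (by simp [hS, ha])
    | succ i ih =>
      intro hi x hx
      obtain ⟨y, hy⟩ := hmem (0, i) (by simp [InV]; omega)
      have h1 := ih (by omega) y hy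
      cases hτi : τ i with
      | true =>
        obtain ⟨w, hw⟩ := hmem (1, i) (by simp [InV]; omega)
        refine (h1.step (w := w) ?_ ?_).step ?_ ?_
        · rw [hG, hy, hw]; simp [ad, ad0]
        · simp [hS, hw, hτi]
        · rw [hG, hx, hw]; simp [ad, ad0]
        · simp [hS, hx]
      | false =>
        obtain ⟨w, hw⟩ := hmem (2, i) (by simp [InV]; omega)
        refine (h1.step (w := w) ?_ ?_).step ?_ ?_
        · rw [hG, hy, hw]; simp [ad, ad0]
        · simp [hS, hw, hτi]
        · rw [hG, hx, hw]; simp [ad, ad0]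
        · simp [hS, hx]
  have hw1 : ∀ i ≤ φ.length, ∀ x, l x = (3, i) → WalkIn G S' b x := by
    intro i
    induction i with
    | zero =>
      intro _ x hx
      have : x = b := hl (hx.trans hb.symm)
      subst this
      exact WalkIn.refl (by simp [hS', hb])
    | succ i ih =>
      intro hi x hx
      obtain ⟨y, hy⟩ := hmem (3, i) (by simp [InV]; omega)
      have h1 := ih (by omega) y hy
      have hi' : i < φ.length := by omega
      obtain ⟨k, hk, hk'⟩ : ∃ k < 3, τ (lit φ (3 * i + k)).2 = (lit φ (3 * i + k)).1 := by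
        rcases hτ _ (List.getElem_mem hi') with h | h | h
        · exact ⟨0, by norm_num, by rw [lit_of_lt φ i 0 hi' (by norm_num)]; exact h⟩
        · exact ⟨1, by norm_num, by rw [lit_of_lt φ i 1 hi' (by norm_num)]; exact h⟩
        · exact ⟨2, by norm_num, by rw [lit_of_lt φ i 2 hi' (by norm_num)]; exact h⟩
      obtain ⟨w, hw⟩ := hmem (4, 3 * i + k) (by simp [InV]; omega)
      have hd : (3 * i + k) / 3 = i := by omega
      refine (h1.step (w := w) ?_ ?_).step ?_ ?_
      · rw [hG, hy, hw]; simp [ad, ad0, hd]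
      · simp only [hS', Set.mem_ofPred_eq, hw]; right; exact ⟨trivial, hk'⟩
      · rw [hG, hx, hw]; simp [ad, ad0, hd]
      · simp [hS', hx]
  obtain ⟨c, hc⟩ := hmem (0, 3 * φ.length) (by simp [InV])
  obtain ⟨d, hd⟩ := hmem (3, φ.length) (by simp [InV])
  obtain ⟨p0, hp0, hp0'⟩ := (hw0 _ le_rfl c hc).azPath (A := {v | InA (l v)})
    (Z := {v | InZ φ.length (l v)})
    (by
      rintro x ⟨h1, h2⟩
      rcases h2 with h2 | h2 | h2
      · exact hl (h2.trans ha.symm)
      · simp [hS, h2] at h1
      · simp [hS, h2] at h1)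
    (by
      rintro x ⟨h1, h2⟩
      rcases h2 with h2 | h2 | h2
      · exact hl (h2.trans hc.symm)
      · simp [hS, h2] at h1
      · simp [hS, h2] at h1)
    (by simp [InA, ha]) (by simp [InZ, hc])
  obtain ⟨p1, hp1, hp1'⟩ := (hw1 _ le_rfl d hd).azPath (A := {v | InA (l v)})
    (Z := {v | InZ φ.length (l v)})
    (by
      rintro x ⟨h1, h2⟩
      rcases h2 with h2 | h2 | h2
      · simp [hS', h2] at h1
      · exact hl (h2.trans hb.symm)
      · simp [hS', h2] at h1)
    (by
      rintro x ⟨h1, h2⟩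
      rcases h2 with h2 | h2 | h2
      · simp [hS', h2] at h1
      · exact hl (h2.trans hd.symm)
      · simp [hS', h2] at h1)
    (by simp [InA, hb]) (by simp [InZ, hd])
  obtain ⟨p2, hp2, hp2'⟩ := (WalkIn.refl (G := G) (S := {r}) (u := r) rfl).azPath
    (A := {v | InA (l v)}) (Z := {v | InZ φ.length (l v)})
    (fun x h => h.1) (fun x h => h.1) (by simp [InA, hr]) (by simp [InZ, hr])
  -- distances
  have f01 : ∀ u ∈ S, ∀ v ∈ S', 3 ≤ G.edist u v := by
    intro u hu v hv
    rw [far_iff]
    simp only [hS, hS', Set.mem_ofPred_eq] at hu hv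
    refine ⟨?_, ?_, ?_⟩
    · rintro rfl; omega
    · rw [hG]
      simp only [ad, ad0, Bool.or_eq_true, Bool.and_eq_true, decide_eq_true_eq]
      omega
    · rintro w ⟨h1, h2⟩
      rw [hG] at h1 h2
      simp only [ad, ad0, Bool.or_eq_true, Bool.and_eq_true, decide_eq_true_eq] at h1 h2
      rcases hu with hu | ⟨hu, hu'⟩ | ⟨hu, hu'⟩
      · omega
      · have hw5 : (l w).1 = 5 := by omega
        have hv4 : (l v).1 = 4 := by omega
        have hlit : lit φ (l w).2 = (false, (l u).2) := by
          rcases h1 with (h1 | h1 | h1 | h1 | h1 | h1 | h1 | h1 | h1 | h1 | h1) | (h1 | h1 | h1 | h1 | h1 | h1 | h1 | h1 | h1 | h1 | h1) <;>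
            first | omega | exact h1.2.2
        have hwv : (l w).2 = (l v).2 := by omega
        rcases hv with hv | ⟨_, hv⟩
        · omega
        · rw [← hwv, hlit] at hv
          rw [hu'] at hv
          simp at hv
      · have hw5 : (l w).1 = 5 := by omega
        have hv4 : (l v).1 = 4 := by omega
        have hlit : lit φ (l w).2 = (true, (l u).2) := by
          rcases h1 with (h1 | h1 | h1 | h1 | h1 | h1 | h1 | h1 | h1 | h1 | h1) | (h1 | h1 | h1 | h1 | h1 | h1 | h1 | h1 | h1 | h1 | h1) <;>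
            first | omega | exact h1.2.2
        have hwv : (l w).2 = (l v).2 := by omega
        rcases hv with hv | ⟨_, hv⟩
        · omega
        · rw [← hwv, hlit] at hv
          rw [hu'] at hv
          simp at hv
  have fr : ∀ u, (l u).1 ≤ 4 → 3 ≤ G.edist u r := by
    intro u hu
    rw [far_iff]
    refine ⟨?_, ?_, ?_⟩
    · rintro rfl; rw [hr] at hu; simp at hu
    · rw [hG, hr]
      simp only [ad, ad0, Bool.or_eq_true, Bool.and_eq_true, decide_eq_true_eq]
      omega
    · rintro w ⟨h1, h2⟩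
      rw [hG] at h1 h2
      rw [hr] at h2
      simp only [ad, ad0, Bool.or_eq_true, Bool.and_eq_true, decide_eq_true_eq] at h1 h2
      omega
  have h0 : ∀ u ∈ S, (l u).1 ≤ 4 := by
    intro u hu
    simp only [hS, Set.mem_ofPred_eq] at hu
    omega
  have h1 : ∀ u ∈ S', (l u).1 ≤ 4 := by
    intro u hu
    simp only [hS', Set.mem_ofPred_eq] at hu
    omega
  refine ⟨![a, b, r], ![c, d, r], fun i => match i with | 0 => p0 | 1 => p1 | 2 => p2, ?_, ?_⟩
  · intro i
    fin_cases i
    · exact hp0
    · exact hp1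
    · exact hp2
  · intro i j hij u hu v hv
    fin_cases i <;> fin_cases j
    · exact absurd rfl hij
    · exact f01 u (hp0' u hu) v (hp1' v hv)
    · have := hp2' v hv
      rw [Set.mem_singleton_iff] at this
      subst this
      exact fr u (h0 u (hp0' u hu))
    · exact far_symm (f01 v (hp0' v hv) u (hp1' u hu))
    · exact absurd rfl hij
    · have := hp2' v hv
      rw [Set.mem_singleton_iff] at this
      subst this
      exact fr u (h1 u (hp1' u hu))
    · have := hp2' u hu
      rw [Set.mem_singleton_iff] at this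
      subst this
      exact far_symm (fr v (h0 v (hp0' v hv)))
    · have := hp2' u hu
      rw [Set.mem_singleton_iff] at this
      subst this
      exact far_symm (fr v (h1 v (hp1' v hv)))
    · exact absurd rfl hij

end Pool.Agent.W956.MM
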