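import Pool.Agent.H671R2.ZDefs

/-!
# Three pairwise far-apart `A`-`Z` paths
-/

namespace Pool.Agent.W956.MM

open Pool.Agent.NPC Pool.Agent.NPC.R671

/-- The walk `p` from `u` to `v` is an `A`-`Z` path: it is a path, `u` is its only vertex in `A`,
and `v` is its only vertex in `Z`. -/
def IsAZPath {V : Type} {G : SimpleGraph V} (A Z : Set V) {u v : V} (p : G.Walk u v) : Prop :=
  p.IsPath ∧ {x | x ∈ p.support} ∩ A = {u} ∧ {x | x ∈ p.support} ∩ Z = {v}

/-- There are three `A`-`Z` paths in `G` whose pairwise distances are at least three. -/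
def ThreeFarPaths {V : Type} (G : SimpleGraph V) (A Z : Set V) : Prop :=
  ∃ (a z : Fin 3 → V) (p : ∀ i, G.Walk (a i) (z i)), (∀ i, IsAZPath A Z (p i)) ∧
    ∀ i j, i ≠ j → ∀ u ∈ (p i).support, ∀ v ∈ (p j).support, 3 ≤ G.edist u v

/-- The `0/1` vector of a set of vertices. -/
noncomputable def vec {n : ℕ} (A : Set (Fin n)) : List Bool :=
  open Classical in List.ofFn fun i => decide (i ∈ A)

/-- The decision problem MM3: given the adjacency matrix of a graph `G` and the `0/1` vectors of
two sets `A`, `Z` of vertices of `G`, are there three `A`-`Z` paths in `G` whose pairwise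
distances are at least three? -/
def MM3 (I : List (List Bool) × List Bool × List Bool) : Prop :=
  ∃ (n : ℕ) (G : SimpleGraph (Fin n)) (A Z : Set (Fin n)),
    I = (adjMatrix G, vec A, vec Z) ∧ ThreeFarPaths G A Z

end Pool.Agent.W956.MM
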