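import Pool.Agent.W956.MM.NPMem

/-!
# Three pairwise far-apart `A`-`Z` paths: MM3 is NP-complete

Reduction from 3SAT.  The third path is forced to be a single vertex `r` which is in `A` and in
`Z`; the other two paths have to avoid all vertices at distance at most two from `r`.  One of them
runs through a line of variable gadgets (two parallel vertices for the two truth values of a
variable), the other one through a line of clause gadgets (three parallel vertices for the literals
of a clause).  A vertex of a clause gadget and the vertex of the value that makes its literal false
have a common neighbour, and this common neighbour has distance two from `r`.
-/

namespace Pool.Agent.W956.MM.Final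

open Pool.Agent.NPC Pool.Agent.W956.MM

/-- **MM3 is NP-complete**: it is in `NP` and it is `NP`-hard under polynomial-time many-one
reductions. -/
theorem result : InNPP MM3 ∧ NPHardP MM3 :=
  ⟨inNPP_MM3, hardI_MM3.toNPHardP⟩

end Pool.Agent.W956.MM.Final
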