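import Pool.Agent.W956.MM.Abs

/-!
# The graph of a formula: correctness
-/

namespace Pool.Agent.W956.MM

open Pool.Agent.NPC Pool.Agent.NPC.R671

variable {V : Type} {φ : Φ} {G : SimpleGraph V} {l : V → ℕ × ℕ}

theorem fst_eq {z : ℕ × ℕ} {a b : ℕ} (h : z = (a, b)) : z.1 = a ∧ z.2 = b := by
  rw [h]; exact ⟨rfl, rfl⟩

theorem lit_of_lt (φ : Φ) (q k : ℕ) (hq : q < φ.length) (hk : k < 3) :
    lit φ (3 * q + k) =
      (if k = 0 then φ[q].1 else if k = 1 then φ[q].2.1 else φ[q].2.2) := by
  have h1 : (3 * q + k) % 3 = k := by omega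
  have h2 : (3 * q + k) / 3 = q := by omega
  unfold lit
  rw [h1, h2, List.getD_eq_getElem?_getD, List.getElem?_eq_getElem hq]
  rfl

/-- three far paths give a satisfying assignment -/
theorem sat_of_paths (hφ : Bounded3 φ)
    (hl : Function.Injective l) (hmem : ∀ z, InV φ.length z → ∃ x, l x = z)
    (hran : ∀ x, InV φ.length (l x))
    (hG : ∀ u v, G.Adj u v ↔ ad φ (l u) (l v) = true)
    (h : ThreeFarPaths G {v | InA (l v)} {v | InZ φ.length (l v)}) : SAT3 φ := by
  classical
  obtain ⟨a, z, p, hp, hfar⟩ := h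
  have hA : ∀ i, InA (l (a i)) := by
    intro i
    have h1 := (hp i).2.1
    have h2 : a i ∈ ({x | x ∈ (p i).support} ∩ {v | InA (l v)} : Set V) := by
      rw [h1]; exact Set.mem_singleton _
    exact h2.2
  have hZ : ∀ i, InZ φ.length (l (z i)) := by
    intro i
    have h1 := (hp i).2.2
    have h2 : z i ∈ ({x | x ∈ (p i).support} ∩ {v | InZ φ.length (l v)} : Set V) := by
      rw [h1]; exact Set.mem_singleton _
    exact h2.2
  have hne : ∀ i j, i ≠ j → a i ≠ a j := by
    intro i j hij he
    have h1 := hfar i j hij (a i) (by simp) (a j) (by simp)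
    rw [far_iff] at h1
    exact h1.1 he
  let f : Fin 3 → Fin 3 := fun i => if l (a i) = (0, 0) then 0 else if l (a i) = (3, 0) then 1 else 2
  have hf : Function.Injective f := by
    intro i j hij
    by_contra hne'
    have h1 := hne i j hne'
    apply h1
    apply hl
    rcases hA i with hi | hi | hi <;> rcases hA j with hj | hj | hj <;>
      simp [f, hi, hj] at hij ⊢
  have hs : Function.Surjective f := Finite.injective_iff_surjective.1 hf
  obtain ⟨i0, h0⟩ := hs 0
  obtain ⟨i1, h1⟩ := hs 1
  obtain ⟨i2, h2⟩ := hs 2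
  have e0 : l (a i0) = (0, 0) := by
    rcases hA i0 with hi | hi | hi
    · exact hi
    · simp [f, hi] at h0
    · simp [f, hi] at h0
  have e1 : l (a i1) = (3, 0) := by
    rcases hA i1 with hi | hi | hi
    · simp [f, hi] at h1
    · exact hi
    · simp [f, hi] at h1
  have e2 : l (a i2) = (7, 0) := by
    rcases hA i2 with hi | hi | hi
    · simp [f, hi] at h2
    · simp [f, hi] at h2
    · exact hi
  have n02 : i0 ≠ i2 := by rintro rfl; rw [e0] at e2; simp at e2
  have n12 : i1 ≠ i2 := by rintro rfl; rw [e1] at e2; simp at e2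
  have n01 : i0 ≠ i1 := by rintro rfl; rw [e0] at e1; simp at e1
  obtain ⟨y, hy⟩ := hmem (6, 0) (by simp [InV])
  have hout : ∀ i, i ≠ i2 → ∀ x ∈ (p i).support, (l x).1 ≤ 4 := by
    intro i hi x hx
    have h3 := hfar i i2 hi x hx (a i2) (by simp)
    rw [far_iff] at h3
    obtain ⟨g1, g2, g3⟩ := h3
    have h5 : (l x).1 ≠ 5 := by
      intro h5
      apply g3 y
      rw [hG, hG, hy, e2]
      constructor <;> simp [ad, ad0, h5]
    have h6 : (l x).1 ≠ 6 := by
      intro h6
      apply g2
      rw [hG, e2]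
      simp [ad, ad0, h6]
    rcases hran x with h | h | h | h | h | h | h | h
    · omega
    · omega
    · omega
    · omega
    · omega
    · omega
    · exact absurd (fst_eq h).1 h6
    · exact absurd (hl (h.trans e2.symm)) g1
  -- the walk on the variable line
  have hS0 : ∀ w ∈ (p i0).support, (l w).1 ≤ 2 := by
    refine walk_closed (fun x => (l x).1 ≤ 2) (fun x => (l x).1 ≤ 4) (p i0) (hout i0 n02) ?_
      (by rw [e0]; simp)
    intro x y hx hy hxy h
    rw [hG] at hxy
    simp only [ad, ad0, Bool.or_eq_true, Bool.and_eq_true, decide_eq_true_eq] at hxy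
    omega
  have hS1 : ∀ w ∈ (p i1).support, (l w).1 = 3 ∨ (l w).1 = 4 := by
    refine walk_closed (fun x => (l x).1 = 3 ∨ (l x).1 = 4) (fun x => (l x).1 ≤ 4) (p i1)
      (hout i1 n12) ?_ (by rw [e1]; simp)
    intro x y hx hy hxy h
    rw [hG] at hxy
    simp only [ad, ad0, Bool.or_eq_true, Bool.and_eq_true, decide_eq_true_eq] at hxy
    omega
  have z0 : l (z i0) = (0, 3 * φ.length) := by
    have := hS0 (z i0) (by simp)
    rcases hZ i0 with h | h | h
    · exact h
    · rw [h] at this; simp at this
    · rw [h] at this; simp at this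
  have z1 : l (z i1) = (3, φ.length) := by
    have := hS1 (z i1) (by simp)
    rcases hZ i1 with h | h | h
    · rw [h] at this; simp at this
    · exact h
    · rw [h] at this; simp at this
  have hit0 : ∀ i < 3 * φ.length, ∃ w ∈ (p i0).support, ((l w).1 = 1 ∨ (l w).1 = 2) ∧ (l w).2 = i := by
    intro i hi
    obtain ⟨w, hw, hw'⟩ := walk_hits (fun x => hv (l x)) (p i0) (by
      intro x y hx hy hxy
      have g1 := hS0 x hx
      have g2 := hS0 y hy
      rw [hG] at hxy
      simp only [ad, ad0, Bool.or_eq_true, Bool.and_eq_true, decide_eq_true_eq] at hxy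
      simp only [hv]
      split_ifs <;> omega) (2 * i + 1) (by simp [e0, hv]) (by simp [z0, hv]; omega)
    refine ⟨w, hw, ?_⟩
    have g1 := hS0 w hw
    simp only [hv] at hw'
    split_ifs at hw' <;> omega
  have hit1 : ∀ q < φ.length, ∃ w ∈ (p i1).support, (l w).1 = 4 ∧ (l w).2 / 3 = q := by
    intro i hi
    obtain ⟨w, hw, hw'⟩ := walk_hits (fun x => hc (l x)) (p i1) (by
      intro x y hx hy hxy
      have g1 := hS1 x hx
      have g2 := hS1 y hy
      rw [hG] at hxy
      simp only [ad, ad0, Bool.or_eq_true, Bool.and_eq_true, decide_eq_true_eq] at hxy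
      simp only [hc]
      split_ifs <;> omega) (2 * i + 1) (by simp [e1, hc]) (by simp [z1, hc]; omega)
    refine ⟨w, hw, ?_⟩
    have g1 := hS1 w hw
    simp only [hc] at hw'
    split_ifs at hw' <;> omega
  refine ⟨fun v => decide (∃ w ∈ (p i0).support, l w = (1, v)), ?_⟩
  -- each occurrence on the clause line is true
  have key : ∀ w ∈ (p i1).support, (l w).1 = 4 → (lit φ (l w).2).2 < 3 * φ.length →
      decide (∃ x ∈ (p i0).support, l x = (1, (lit φ (l w).2).2)) = (lit φ (l w).2).1 := by
    intro w hw h4 hlt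
    have ho : (l w).2 < 3 * φ.length := by
      rcases hran w with h | h | h | h | h | h | h | h
      · omega
      · omega
      · omega
      · omega
      · exact h.2
      · omega
      · have := (fst_eq h).1; omega
      · have := (fst_eq h).1; omega
    obtain ⟨c0, hc0⟩ := hmem (5, (l w).2) (by simp [InV]; omega)
    have hconf : ∀ x ∈ (p i0).support, l x = (1, (lit φ (l w).2).2) → (lit φ (l w).2).1 = true := by
      intro x hx hx'
      by_contra hb
      have hb' : (lit φ (l w).2).1 = false := by simpa using hb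
      have h3 := hfar i0 i1 n01 x hx w hw
      rw [far_iff] at h3
      apply h3.2.2 c0
      rw [hG, hG, hx', hc0]
      have h5 : lit φ (l w).2 = (false, (lit φ (l w).2).2) := by rw [← hb']
      constructor
      · simp [ad, ad0, ← h5]
      · simp [ad, ad0, h4]
    have hconf2 : ∀ x ∈ (p i0).support, l x = (2, (lit φ (l w).2).2) → (lit φ (l w).2).1 = false := by
      intro x hx hx'
      by_contra hb
      have hb' : (lit φ (l w).2).1 = true := by simpa using hb
      have h3 := hfar i0 i1 n01 x hx w hw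
      rw [far_iff] at h3
      apply h3.2.2 c0
      rw [hG, hG, hx', hc0]
      have h5 : lit φ (l w).2 = (true, (lit φ (l w).2).2) := by rw [← hb']
      constructor
      · simp [ad, ad0, ← h5]
      · simp [ad, ad0, h4]
    by_cases hx : ∃ x ∈ (p i0).support, l x = (1, (lit φ (l w).2).2)
    · rw [decide_eq_true hx]
      obtain ⟨x, hx, hx'⟩ := hx
      exact (hconf x hx hx').symm
    · rw [decide_eq_false hx]
      obtain ⟨x, hx1, hx2, hx3⟩ := hit0 _ hlt
      rcases hx2 with hx2 | hx2
      · exact absurd ⟨x, hx1, Prod.ext hx2 hx3⟩ hx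
      · exact (hconf2 x hx1 (Prod.ext hx2 hx3)).symm
  intro c hc
  obtain ⟨q, hq, rfl⟩ := List.getElem_of_mem hc
  obtain ⟨w, hw, hw1, hw2⟩ := hit1 q hq
  have hb := hφ _ hc
  have hw3 : (l w).2 = 3 * q + (l w).2 % 3 := by omega
  have hk : (l w).2 % 3 < 3 := Nat.mod_lt _ (by norm_num)
  have h7 := key w hw hw1
  rw [hw3, lit_of_lt φ q _ hq hk] at h7
  generalize (l w).2 % 3 = k at *
  interval_cases k
  · left; exact h7 (by simpa using hb.1)
  · right; left; exact h7 (by simpa using hb.2.1)
  · right; right; exact h7 (by simpa using hb.2.2)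

end Pool.Agent.W956.MM
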