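import Pool.Agent.W956.MM.Red
import Pool.Agent.H671R2.OrdNP2

/-!
# MM3 is in NP
-/

namespace Pool.Agent.W956.MM

open Pool.Agent.NPC Pool.Agent.NPC.R671 Pool.Agent.H671R2.Ord

/-- check of a walk -/
def okw (M : List (List Bool)) (A Z : List Bool) (L : List ℕ) : Bool :=
  !(L.isEmpty) && (L.all (fun a => decide (a < M.length)) &&
  ((List.zip L L.tail).all (fun p => me M p.1 p.2) &&
  (A.getD (L.getD 0 0) false && (L.all (fun a => !(A.getD a false) || decide (a = L.getD 0 0)) &&
  (Z.getD (L.reverse.getD 0 0) false &&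
    L.all (fun a => !(Z.getD a false) || decide (a = L.reverse.getD 0 0)))))))

/-- check of a distance -/
def farb (M : List (List Bool)) (a b : ℕ) : Bool :=
  !(decide (a = b)) && (!(me M a b) &&
    (List.range M.length).all (fun k => !(me M a k && me M k b)))

/-- check of the distances of two lists -/
def farl (M : List (List Bool)) (L L' : List ℕ) : Bool :=
  L.all (fun a => L'.all (fun b => farb M a b))

/-- the verifier -/
def vf (x : (List (List Bool) × List Bool × List Bool) × (List ℕ × List ℕ × List ℕ)) : Bool :=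
  wf x.1.1 && (decide (x.1.2.1.length = x.1.1.length) && (decide (x.1.2.2.length = x.1.1.length) &&
  (okw x.1.1 x.1.2.1 x.1.2.2 x.2.1 && (okw x.1.1 x.1.2.1 x.1.2.2 x.2.2.1 &&
  (okw x.1.1 x.1.2.1 x.1.2.2 x.2.2.2 &&
  (farl x.1.1 x.2.1 x.2.2.1 && (farl x.1.1 x.2.1 x.2.2.2 && farl x.1.1 x.2.2.1 x.2.2.2)))))))

theorem chain_zip {α : Type} (R : α → α → Prop) : ∀ L : List α,
    (∀ p ∈ List.zip L L.tail, R p.1 p.2) ↔ L.IsChain R
  | [] => by simp
  | [a] => by simp
  | a :: b :: L => by
    have ih := chain_zip R (b :: L)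
    simp only [List.tail_cons] at ih ⊢
    rw [List.zip_cons_cons, List.isChain_cons_cons, ← ih]
    simp

theorem exists_lift {n : ℕ} : ∀ L : List ℕ, (∀ a ∈ L, a < n) →
    ∃ L' : List (Fin n), L'.map Fin.val = L
  | [], _ => ⟨[], rfl⟩
  | a :: L, h => by
    obtain ⟨L', hL'⟩ := exists_lift L (fun b hb => h b (by simp [hb]))
    exact ⟨⟨a, h a (by simp)⟩ :: L', by simp [hL']⟩

theorem vec_getD {n : ℕ} (A : Set (Fin n)) (i : Fin n) : (vec A).getD i false = true ↔ i ∈ A := by
  simp [vec, List.getD_eq_getElem?_getD]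

theorem vec_length {n : ℕ} (A : Set (Fin n)) : (vec A).length = n := by
  simp [vec]

theorem exists_vec {n : ℕ} (l : List Bool) (h : l.length = n) : ∃ A : Set (Fin n), vec A = l := by
  classical
  subst h
  refine ⟨{i | l[i] = true}, ?_⟩
  unfold vec
  apply List.ext_getElem
  · simp
  · intro i h1 h2
    simp

theorem farb_iff {n : ℕ} (G : SimpleGraph (Fin n)) (a b : Fin n) :
    farb (adjMatrix G) a b = true ↔ 3 ≤ G.edist a b := by
  rw [far_iff]
  have h1 : (!(decide ((a : ℕ) = b))) = true ↔ a ≠ b := by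
    rw [Bool.not_eq_true', decide_eq_false_iff_not, Fin.val_inj]
  have h2 : (!(me (adjMatrix G) a b)) = true ↔ ¬ G.Adj a b := by
    rw [← me_adj, Bool.not_eq_true', Bool.not_eq_true]
  have h3 : ((List.range (adjMatrix G).length).all
      (fun k => !(me (adjMatrix G) a k && me (adjMatrix G) k b))) = true ↔
      ∀ w, ¬ (G.Adj a w ∧ G.Adj w b) := by
    rw [List.all_eq_true, length_adjMatrix]
    constructor
    · intro h w
      have := h w (List.mem_range.2 w.isLt)
      rw [← me_adj, ← me_adj, ← Bool.and_eq_true, Bool.not_eq_true]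
      rwa [Bool.not_eq_true'] at this
    · intro h k hk
      have := h ⟨k, List.mem_range.1 hk⟩
      rw [← me_adj, ← me_adj, ← Bool.and_eq_true, Bool.not_eq_true] at this
      rwa [Bool.not_eq_true']
  rw [farb, Bool.and_eq_true, Bool.and_eq_true, h1, h2, h3]

theorem zip_map_val {n : ℕ} (L : List (Fin n)) :
    List.zip (L.map Fin.val) (L.map Fin.val).tail =
      (List.zip L L.tail).map (fun p => ((p.1 : ℕ), (p.2 : ℕ))) := by
  rw [← List.map_tail, List.zip_map]
  rfl

theorem getD_head {n : ℕ} : ∀ (K : List (Fin n)) (h : K ≠ []),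
    (K.map Fin.val).getD 0 0 = ((K.head h : Fin n) : ℕ)
  | [], h => absurd rfl h
  | a :: K, _ => by simp

theorem okw_iff {n : ℕ} (G : SimpleGraph (Fin n)) (A Z : Set (Fin n)) (L : List (Fin n)) :
    okw (adjMatrix G) (vec A) (vec Z) (L.map Fin.val) = true ↔
    ∃ h : L ≠ [], L.IsChain G.Adj ∧ L.head h ∈ A ∧ (∀ a ∈ L, a ∈ A → a = L.head h) ∧
      L.getLast h ∈ Z ∧ (∀ a ∈ L, a ∈ Z → a = L.getLast h) := by
  by_cases h : L = []
  · subst h
    simp [okw]
  · have hh : (L.map Fin.val).getD 0 0 = ((L.head h : Fin n) : ℕ) := by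
      exact getD_head L h
    have hl : (L.map Fin.val).reverse.getD 0 0 = ((L.getLast h : Fin n) : ℕ) := by
      rw [← List.map_reverse]
      have h' : L.reverse ≠ [] := by simpa using h
      have : L.getLast h = L.reverse.head h' := by
        rw [List.head_reverse]
      rw [this]
      exact getD_head L.reverse h'
    have e1 : (!((L.map Fin.val).isEmpty)) = true := by
      cases L with
      | nil => exact absurd rfl h
      | cons a L => rfl
    have e2 : ((L.map Fin.val).all (fun a => decide (a < (adjMatrix G).length))) = true := by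
      rw [List.all_eq_true]
      intro a ha
      rw [List.mem_map] at ha
      obtain ⟨b, _, rfl⟩ := ha
      rw [length_adjMatrix]
      simp
    have e3 : ((List.zip (L.map Fin.val) (L.map Fin.val).tail).all
        (fun p => me (adjMatrix G) p.1 p.2)) = true ↔ L.IsChain G.Adj := by
      rw [zip_map_val, ← chain_zip, List.all_map, List.all_eq_true]
      refine forall₂_congr fun p _ => ?_
      exact me_adj G p.1 p.2
    have e4 : ∀ (B : Set (Fin n)) (x : Fin n),
        ((L.map Fin.val).all (fun a => !((vec B).getD a false) || decide (a = (x : ℕ)))) = true ↔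
        ∀ a ∈ L, a ∈ B → a = x := by
      intro B x
      rw [List.all_map, List.all_eq_true]
      refine forall₂_congr fun a _ => ?_
      rw [Function.comp, Bool.or_eq_true, Bool.not_eq_true', decide_eq_true_iff, Fin.val_inj,
        ← vec_getD, ← Bool.not_eq_true, imp_iff_not_or]
    have e5 : (vec A).getD ((L.head h : Fin n) : ℕ) false = true ↔ L.head h ∈ A := vec_getD _ _
    have e6 : (vec Z).getD ((L.getLast h : Fin n) : ℕ) false = true ↔ L.getLast h ∈ Z :=
      vec_getD _ _
    unfold okw
    rw [hh, hl]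
    rw [Bool.and_eq_true, Bool.and_eq_true, Bool.and_eq_true, Bool.and_eq_true, Bool.and_eq_true,
      Bool.and_eq_true, e3, e4, e4, e5, e6]
    constructor
    · rintro ⟨_, _, h3, h4, h5, h6, h7⟩
      exact ⟨h, h3, h4, h5, h6, h7⟩
    · rintro ⟨_, h3, h4, h5, h6, h7⟩
      exact ⟨e1, e2, h3, h4, h5, h6, h7⟩

theorem farl_iff {n : ℕ} (G : SimpleGraph (Fin n)) (L L' : List (Fin n)) :
    farl (adjMatrix G) (L.map Fin.val) (L'.map Fin.val) = true ↔
    ∀ a ∈ L, ∀ b ∈ L', 3 ≤ G.edist a b := by
  unfold farl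
  rw [List.all_map, List.all_eq_true]
  refine forall₂_congr fun a _ => ?_
  rw [Function.comp, List.all_map, List.all_eq_true]
  exact forall₂_congr fun b _ => farb_iff G a b

theorem okw_lt {M : List (List Bool)} {A Z : List Bool} {L : List ℕ} (h : okw M A Z L = true) :
    ∀ a ∈ L, a < M.length := by
  unfold okw at h
  simp only [Bool.and_eq_true, List.all_eq_true, decide_eq_true_eq] at h
  exact h.2.1

theorem walkIn_of_chain {n : ℕ} {G : SimpleGraph (Fin n)} {L : List (Fin n)} (h : L ≠ [])
    (hc : L.IsChain G.Adj) : WalkIn G {x | x ∈ L} (L.head h) (L.getLast h) :=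
  ⟨SimpleGraph.Walk.ofSupport L h hc, fun w hw => by
    rwa [SimpleGraph.Walk.support_ofSupport] at hw⟩

theorem sz_path {n : ℕ} (L : List (Fin n)) (h : L.Nodup) : sz (L.map Fin.val) ≤ n * (8 * n + 4) + 1 := by
  have h1 := sz_le_length_mul (L.map Fin.val) (8 * n + 2) (by
    intro a ha
    rw [List.mem_map] at ha
    obtain ⟨b, _, rfl⟩ := ha
    have h1 := sz_nat_mono_le b.isLt.le
    have h2 := sz_nat_le n
    have h3 := NPC.Poly.size_le_self n
    omega)
  have h2 : L.length ≤ n := by
    have := h.length_le_card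
    simpa using this
  rw [List.length_map] at h1
  nlinarith

theorem mm3_cert (I : List (List Bool) × List Bool × List Bool) : MM3 I ↔
    ∃ W, sz W ≤ ((Polynomial.X * (8 * Polynomial.X + 4) + 1) * 3 + 2 : Polynomial ℕ).eval (sz I) ∧
      vf (I, W) = true := by
  constructor
  · rintro ⟨n, G, A, Z, rfl, a, z, p, hp, hfar⟩
    have hn : n ≤ sz (adjMatrix G, vec A, vec Z) := by
      have := length_lt_sz (adjMatrix G)
      rw [length_adjMatrix] at this
      simp only [sz_pair]
      omega
    have hnd : ∀ i, (p i).support.Nodup := fun i => (hp i).1.support_nodup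
    refine ⟨((p 0).support.map Fin.val, (p 1).support.map Fin.val, (p 2).support.map Fin.val),
      ?_, ?_⟩
    · have h0 := sz_path _ (hnd 0)
      have h1 := sz_path _ (hnd 1)
      have h2 := sz_path _ (hnd 2)
      rw [sz_pair, sz_pair]
      have h3 : n * (8 * n + 4) + 1 ≤ ((Polynomial.X * (8 * Polynomial.X + 4) + 1 : Polynomial ℕ)).eval
          (sz (adjMatrix G, vec A, vec Z)) := by
        simp only [Polynomial.eval_add, Polynomial.eval_mul, Polynomial.eval_X,
          Polynomial.eval_ofNat, Polynomial.eval_one]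
        gcongr
      rw [Polynomial.eval_add, Polynomial.eval_mul]
      simp only [Polynomial.eval_ofNat]
      omega
    · have hok : ∀ i, okw (adjMatrix G) (vec A) (vec Z) ((p i).support.map Fin.val) = true := by
        intro i
        rw [okw_iff]
        have e1 : (p i).support.head (p i).support_ne_nil = a i := by simp
        have e2 : (p i).support.getLast (p i).support_ne_nil = z i := by simp
        refine ⟨(p i).support_ne_nil, (p i).isChain_adj_support, ?_, ?_, ?_, ?_⟩
        · rw [e1]
          have : a i ∈ ({x | x ∈ (p i).support} ∩ A : Set (Fin n)) := by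
            rw [(hp i).2.1]; exact Set.mem_singleton _
          exact this.2
        · intro x hx hx'
          rw [e1]
          have : x ∈ ({x | x ∈ (p i).support} ∩ A : Set (Fin n)) := ⟨hx, hx'⟩
          rw [(hp i).2.1] at this
          exact this
        · rw [e2]
          have : z i ∈ ({x | x ∈ (p i).support} ∩ Z : Set (Fin n)) := by
            rw [(hp i).2.2]; exact Set.mem_singleton _
          exact this.2
        · intro x hx hx'
          rw [e2]
          have : x ∈ ({x | x ∈ (p i).support} ∩ Z : Set (Fin n)) := ⟨hx, hx'⟩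
          rw [(hp i).2.2] at this
          exact this
      have hfl : ∀ i j, i ≠ j → farl (adjMatrix G) ((p i).support.map Fin.val)
          ((p j).support.map Fin.val) = true := by
        intro i j hij
        rw [farl_iff]
        exact hfar i j hij
      have hw : wf (adjMatrix G) = true := (wf_iff _).2 ⟨n, G, rfl⟩
      simp only [vf, hw, hok, vec_length, length_adjMatrix, hfl 0 1 (by decide),
        hfl 0 2 (by decide), hfl 1 2 (by decide), decide_true, Bool.and_true]
  · rintro ⟨⟨L0, L1, L2⟩, _, h⟩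
    obtain ⟨M, vA, vZ⟩ := I
    simp only [vf, Bool.and_eq_true, decide_eq_true_eq] at h
    obtain ⟨h1, h2, h3, h4, h5, h6, h7, h8, h9⟩ := h
    obtain ⟨n, G, rfl⟩ := (wf_iff M).1 h1
    rw [length_adjMatrix] at h2 h3
    obtain ⟨A, rfl⟩ := exists_vec vA h2
    obtain ⟨Z, rfl⟩ := exists_vec vZ h3
    have g0 := okw_lt h4
    have g1 := okw_lt h5
    have g2 := okw_lt h6
    rw [length_adjMatrix] at g0 g1 g2
    obtain ⟨K0, rfl⟩ := exists_lift L0 g0
    obtain ⟨K1, rfl⟩ := exists_lift L1 g1
    obtain ⟨K2, rfl⟩ := exists_lift L2 g2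
    rw [farl_iff] at h7 h8 h9
    have hpath : ∀ L : List (Fin n), okw (adjMatrix G) (vec A) (vec Z) (L.map Fin.val) = true →
        ∃ (u v : Fin n) (p : G.Walk u v), IsAZPath A Z p ∧ ∀ w ∈ p.support, w ∈ L := by
      intro L hL
      rw [okw_iff] at hL
      obtain ⟨q0, q1, q2, q3, q4, q5⟩ := hL
      obtain ⟨p, hp, hp'⟩ := (walkIn_of_chain q0 q1).azPath (A := A) (Z := Z)
        (fun x hx => q3 x hx.1 hx.2) (fun x hx => q5 x hx.1 hx.2) q2 q4
      exact ⟨_, _, p, hp, hp'⟩
    obtain ⟨u0, v0, p0, hp0, hp0'⟩ := hpath K0 h4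
    obtain ⟨u1, v1, p1, hp1, hp1'⟩ := hpath K1 h5
    obtain ⟨u2, v2, p2, hp2, hp2'⟩ := hpath K2 h6
    refine ⟨n, G, A, Z, rfl, ![u0, u1, u2], ![v0, v1, v2],
      fun i => match i with | 0 => p0 | 1 => p1 | 2 => p2, ?_, ?_⟩
    · intro i
      fin_cases i
      · exact hp0
      · exact hp1
      · exact hp2
    · intro i j hij u hu v hv
      fin_cases i <;> fin_cases j
      · exact absurd rfl hij
      · exact h7 u (hp0' u hu) v (hp1' v hv)
      · exact h8 u (hp0' u hu) v (hp2' v hv)
      · exact far_symm (h7 v (hp0' v hv) u (hp1' u hu))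
      · exact absurd rfl hij
      · exact h9 u (hp1' u hu) v (hp2' v hv)
      · exact far_symm (h8 v (hp0' v hv) u (hp2' u hu))
      · exact far_symm (h9 v (hp1' v hv) u (hp2' u hu))
      · exact absurd rfl hij

attribute [local irreducible] me

theorem okw_poly {α : Type} [TEnc α] {M : α → List (List Bool)} {A Z : α → List Bool}
    {L : α → List ℕ} (h1 : Poly M) (h2 : Poly A) (h3 : Poly Z) (h4 : Poly L) :
    Poly (fun x => okw (M x) (A x) (Z x) (L x)) := by
  unfold okw
  refine NPC.Poly.and (by fun_prop) (NPC.Poly.and ?_ (NPC.Poly.and ?_ (NPC.Poly.and (by fun_prop)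
    (NPC.Poly.and ?_ (NPC.Poly.and (by fun_prop) ?_)))))
  · exact NPC.Poly.all (l := L) (p := fun x a => decide (a < (M x).length)) h4 (by fun_prop)
  · exact NPC.Poly.all (l := fun x => List.zip (L x) (L x).tail)
      (p := fun x p => me (M x) p.1 p.2) (by fun_prop) (by fun_prop)
  · exact NPC.Poly.all (l := L) (p := fun x a => !((A x).getD a false) ||
      decide (a = (L x).getD 0 0)) h4 (by fun_prop)
  · exact NPC.Poly.all (l := L) (p := fun x a => !((Z x).getD a false) ||
      decide (a = (L x).reverse.getD 0 0)) h4 (by fun_prop)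

theorem farb_poly {α : Type} [TEnc α] {M : α → List (List Bool)} {a b : α → ℕ}
    (h1 : Poly M) (h2 : Poly a) (h3 : Poly b) : Poly (fun x => farb (M x) (a x) (b x)) := by
  unfold farb
  refine NPC.Poly.and (by fun_prop) (NPC.Poly.and (by fun_prop) ?_)
  exact NPC.Poly.all (l := fun x => List.range (M x).length)
    (p := fun x k => !(me (M x) (a x) k && me (M x) k (b x)))
    (UPoly.range (UPoly.length h1)) (by fun_prop)

theorem farl_poly {α : Type} [TEnc α] {M : α → List (List Bool)} {L L' : α → List ℕ}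
    (h1 : Poly M) (h2 : Poly L) (h3 : Poly L') : Poly (fun x => farl (M x) (L x) (L' x)) := by
  unfold farl
  refine NPC.Poly.all (l := L) (p := fun x a => (L' x).all (fun b => farb (M x) a b)) h2 ?_
  exact NPC.Poly.all (l := fun x : α × ℕ => L' x.1) (p := fun x b => farb (M x.1) x.2 b)
    (by fun_prop) (farb_poly (by fun_prop) (by fun_prop) (by fun_prop))

theorem vf_poly : Poly vf := by
  unfold vf
  refine NPC.Poly.and (wf_poly.comp (by fun_prop)) (NPC.Poly.and (by fun_prop)
    (NPC.Poly.and (by fun_prop) (NPC.Poly.and ?_ (NPC.Poly.and ?_ (NPC.Poly.and ?_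
    (NPC.Poly.and ?_ (NPC.Poly.and ?_ ?_)))))))
  · exact okw_poly (by fun_prop) (by fun_prop) (by fun_prop) (by fun_prop)
  · exact okw_poly (by fun_prop) (by fun_prop) (by fun_prop) (by fun_prop)
  · exact okw_poly (by fun_prop) (by fun_prop) (by fun_prop) (by fun_prop)
  · exact farl_poly (by fun_prop) (by fun_prop) (by fun_prop)
  · exact farl_poly (by fun_prop) (by fun_prop) (by fun_prop)
  · exact farl_poly (by fun_prop) (by fun_prop) (by fun_prop)

/-- MM3 is in NP. -/
theorem inNPP_MM3 : InNPP MM3 := inNPP_of vf_poly _ mm3_cert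

end Pool.Agent.W956.MM
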