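import Pool.Agent.W956.MM.Conv
import Pool.Agent.H671R2.PolyAuto
import Pool.Agent.NPC.Hard
import Pool.Agent.NPC.Dec

/-!
# MM3 is NP-hard
-/

namespace Pool.Agent.W956.MM

open Pool.Agent.NPC Pool.Agent.NPC.R671

/-- the list of the labels -/
def vs (φ : Φ) : List (ℕ × ℕ) :=
  ((0, 3 * φ.length) :: (3, φ.length) :: (6, 0) :: (7, 0) ::
    (List.range φ.length).map (fun q => (3, q))) ++
    [0, 1, 2, 4, 5].flatMap (fun i => (List.range (3 * φ.length)).map (fun o => (i, o)))

theorem mem_vs (φ : Φ) (z : ℕ × ℕ) : z ∈ vs φ ↔ InV φ.length z := by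
  obtain ⟨k, i⟩ := z
  simp only [vs, InV, List.mem_append, List.mem_cons, List.mem_map, List.mem_range,
    List.mem_flatMap, List.not_mem_nil, or_false, Prod.mk.injEq]
  constructor
  · rintro ((h | h | h | h | ⟨q, h1, h2, h3⟩) | ⟨j, hj, o, h1, h2, h3⟩) <;> omega
  · rintro (h | h | h | h | h | h | h | h)
    · rcases Nat.lt_or_ge i (3 * φ.length) with h1 | h1
      · exact Or.inr ⟨0, by omega, i, h1, by omega, rfl⟩
      · left; left; omega
    · exact Or.inr ⟨1, by omega, i, h.2, by omega, rfl⟩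
    · exact Or.inr ⟨2, by omega, i, h.2, by omega, rfl⟩
    · rcases Nat.lt_or_ge i φ.length with h1 | h1
      · left; right; right; right; right
        exact ⟨i, h1, by omega, rfl⟩
      · left; right; left; omega
    · exact Or.inr ⟨4, by omega, i, h.2, by omega, rfl⟩
    · exact Or.inr ⟨5, by omega, i, h.2, by omega, rfl⟩
    · left; omega
    · left; omega

theorem nodup_vs (φ : Φ) : (vs φ).Nodup := by
  unfold vs
  rw [List.nodup_append']
  refine ⟨?_, ?_, ?_⟩
  · have h1 : ((List.range φ.length).map (fun q => ((3 : ℕ), q))).Nodup :=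
      List.Nodup.map (fun a b h => (Prod.mk.injEq _ _ _ _ ▸ h).2) List.nodup_range
    simp only [List.nodup_cons, List.mem_cons, List.mem_map, List.mem_range, Prod.mk.injEq]
    refine ⟨?_, ?_, ?_, ?_, h1⟩
    · rintro (h | h | h | ⟨q, h1, h2, h3⟩) <;> omega
    · rintro (h | h | ⟨q, h1, h2, h3⟩) <;> omega
    · rintro (h | ⟨q, h1, h2, h3⟩) <;> omega
    · rintro ⟨q, h1, h2, h3⟩; omega
  · rw [List.nodup_flatMap]
    refine ⟨fun i _ => List.Nodup.map (fun a b h => (Prod.mk.injEq _ _ _ _ ▸ h).2)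
      List.nodup_range, ?_⟩
    have h1 : List.Nodup [0, 1, 2, 4, 5] := by decide
    refine List.Pairwise.imp ?_ h1
    intro a b hab z hz hz'
    rw [List.mem_map] at hz hz'
    obtain ⟨x, _, rfl⟩ := hz
    obtain ⟨y, _, hy⟩ := hz'
    simp only [Prod.mk.injEq] at hy
    exact hab hy.1.symm
  · rintro ⟨k, i⟩ hz hz'
    simp only [List.mem_cons, List.mem_map, List.mem_range, Prod.mk.injEq] at hz
    simp only [List.mem_flatMap, List.mem_cons, List.mem_map, List.mem_range, Prod.mk.injEq,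
      List.not_mem_nil, or_false] at hz'
    obtain ⟨j, hj, o, ho, h1, h2⟩ := hz'
    rcases hz with h | h | h | h | ⟨q, h3, h4, h5⟩ <;> omega

/-- the graph of the formula -/
def gr (φ : Φ) : SimpleGraph (Fin (vs φ).length) :=
  listGraph (vs φ) (ad φ) (ad_symm φ) (ad_irrefl φ)

/-- membership of a label in `A` -/
def bA (z : ℕ × ℕ) : Bool := decide (z = (0, 0)) || (decide (z = (3, 0)) || decide (z = (7, 0)))

/-- membership of a label in `Z` -/
def bZ (m : ℕ) (z : ℕ × ℕ) : Bool :=
  decide (z = (0, 3 * m)) || (decide (z = (3, m)) || decide (z = (7, 0)))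

theorem bA_iff (z : ℕ × ℕ) : bA z = true ↔ InA z := by
  simp [bA, InA]

theorem bZ_iff (m : ℕ) (z : ℕ × ℕ) : bZ m z = true ↔ InZ m z := by
  simp [bZ, InZ]

/-- the set `A` -/
def sA (φ : Φ) : Set (Fin (vs φ).length) := {v | InA ((vs φ)[v])}

/-- the set `Z` -/
def sZ (φ : Φ) : Set (Fin (vs φ).length) := {v | InZ φ.length ((vs φ)[v])}

theorem gr_correct (φ : Φ) (hφ : Bounded3 φ) :
    SAT3 φ ↔ ThreeFarPaths (gr φ) (sA φ) (sZ φ) := by
  have hl : Function.Injective (fun i : Fin (vs φ).length => (vs φ)[i]) := by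
    intro i j hij
    exact Fin.ext ((List.Nodup.getElem_inj_iff (nodup_vs φ)).1 hij)
  have hmem : ∀ z, InV φ.length z → ∃ x : Fin (vs φ).length, (vs φ)[x] = z := by
    intro z hz
    obtain ⟨i, hi, hi'⟩ := List.getElem_of_mem ((mem_vs φ z).2 hz)
    exact ⟨⟨i, hi⟩, hi'⟩
  have hran : ∀ x : Fin (vs φ).length, InV φ.length ((vs φ)[x]) := fun x =>
    (mem_vs φ _).1 (List.getElem_mem _)
  constructor
  · intro h
    exact paths_of_sat hφ hl hmem hran (fun u v => Iff.rfl) h
  · intro h
    exact sat_of_paths hφ hl hmem hran (fun u v => Iff.rfl) h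

/-- the instance -/
noncomputable def ins (φ : Φ) : List (List Bool) × List Bool × List Bool :=
  (adjMatrix (gr φ), vec (sA φ), vec (sZ φ))

theorem vec_inj {n : ℕ} {A B : Set (Fin n)} (h : vec A = vec B) : A = B := by
  classical
  unfold vec at h
  have h1 := List.ofFn_injective h
  ext i
  have h2 := congrFun h1 i
  simpa using h2

theorem mm3_iff {n : ℕ} (G : SimpleGraph (Fin n)) (A Z : Set (Fin n)) :
    MM3 (adjMatrix G, vec A, vec Z) ↔ ThreeFarPaths G A Z := by
  constructor
  · rintro ⟨n', G', A', Z', h, h'⟩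
    simp only [Prod.mk.injEq] at h
    have h5 : n' = n := by
      have := congrArg List.length h.1
      simpa [adjMatrix] using this.symm
    subst h5
    rw [adjMatrix_inj h.1, vec_inj h.2.1, vec_inj h.2.2]
    exact h'
  · intro h
    exact ⟨n, G, A, Z, rfl, h⟩

theorem lit_poly {α : Type} [TEnc α] {f : α → Φ} {o : α → ℕ} (h : Poly f) (h' : Poly o) :
    Poly (fun x => lit (f x) (o x)) := by
  unfold lit
  have h1 : Poly (fun x => o x % 3) := NPC.Poly.mod h' (NPC.Poly.const 3)
  have h2 : Poly (fun x => o x / 3) := NPC.Poly.div h' (NPC.Poly.const 3)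
  have h3 : Poly (fun x => (f x).getD (o x / 3) ((false, 0), (false, 0), (false, 0))) :=
    NPC.Poly.getD h h2 (NPC.Poly.const _)
  fun_prop

attribute [local fun_prop] lit_poly

theorem ad0_poly {α : Type} [TEnc α] {f : α → Φ} {a b : α → ℕ × ℕ} (h : Poly f) (ha : Poly a)
    (hb : Poly b) : Poly (fun x => ad0 (f x) (a x) (b x)) := by
  unfold ad0
  have h1 : Poly (fun x => (b x).2 / 3) := NPC.Poly.div (NPC.Poly.snd hb) (NPC.Poly.const 3)
  have h2 : Poly (fun x => (a x).2 / 3) := NPC.Poly.div (NPC.Poly.snd ha) (NPC.Poly.const 3)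
  fun_prop

theorem vs_poly : Poly vs := by
  unfold vs
  have u' : UPoly (fun φ : Φ => φ.length) := UPoly.length NPC.Poly.id
  have u : UPoly (fun φ : Φ => 3 * φ.length) := UPoly.mul (UPoly.const 3) u'
  have h1 := u.range
  have h2 := u'.range
  refine NPC.Poly.append (by fun_prop) ?_
  refine NPC.Poly.flatMap (l := fun _ : Φ => [0, 1, 2, 4, 5])
    (F := fun (φ : Φ) i => (List.range (3 * φ.length)).map (fun o => (i, o))) (NPC.Poly.const _) ?_
  exact NPC.Poly.map (l := fun x : Φ × ℕ => List.range (3 * x.1.length))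
    (F := fun x o => (x.2, o)) (h1.comp (NPC.Poly.fst NPC.Poly.id)) (by fun_prop)

theorem gr_poly : Poly (fun φ : Φ => adjMatrix (gr φ)) := by
  have h1 : ∀ φ : Φ, adjMatrix (gr φ) = (vs φ).map (fun u => (vs φ).map (fun w => ad φ u w)) :=
    fun φ => adjMatrix_listGraph _ _ _ _
  have h2 : Poly (fun φ : Φ => (vs φ).map (fun u => (vs φ).map (fun w => ad φ u w))) := by
    refine NPC.Poly.map (l := vs) (F := fun φ u => (vs φ).map (fun w => ad φ u w)) vs_poly ?_
    refine NPC.Poly.map (l := fun x : Φ × (ℕ × ℕ) => vs x.1) (F := fun x w => ad x.1 x.2 w)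
      (vs_poly.comp (NPC.Poly.fst NPC.Poly.id)) ?_
    unfold ad
    exact NPC.Poly.or (ad0_poly (by fun_prop) (by fun_prop) (by fun_prop))
      (ad0_poly (by fun_prop) (by fun_prop) (by fun_prop))
  exact h2.congr fun φ => (h1 φ).symm

theorem vec_list {Λ : Type} (L : List Λ) (b : Λ → Bool) (A : Set (Fin L.length))
    (h : ∀ i : Fin L.length, i ∈ A ↔ b L[i] = true) : vec A = L.map b := by
  classical
  unfold vec
  apply List.ext_getElem
  · simp
  · intro i h1 h2
    simp only [List.getElem_ofFn, List.getElem_map]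
    have hi : i < L.length := by simpa using h2
    have := h ⟨i, hi⟩
    rw [Bool.eq_iff_iff, decide_eq_true_iff]
    exact this

theorem sA_poly : Poly (fun φ : Φ => vec (sA φ)) := by
  have h2 : Poly (fun φ : Φ => (vs φ).map bA) := by
    refine NPC.Poly.map (l := vs) (F := fun _ z => bA z) vs_poly ?_
    unfold bA
    fun_prop
  exact h2.congr fun φ => (vec_list (vs φ) bA (sA φ) (fun i => (bA_iff _).symm)).symm

theorem sZ_poly : Poly (fun φ : Φ => vec (sZ φ)) := by
  have h2 : Poly (fun φ : Φ => (vs φ).map (bZ φ.length)) := by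
    refine NPC.Poly.map (l := vs) (F := fun φ z => bZ φ.length z) vs_poly ?_
    unfold bZ
    fun_prop
  exact h2.congr fun φ => (vec_list (vs φ) (bZ φ.length) (sZ φ) (fun i => (bZ_iff _ _).symm)).symm

theorem ins_poly : Poly ins := by
  unfold ins
  exact NPC.Poly.pair gr_poly (NPC.Poly.pair sA_poly sZ_poly)

theorem hardI_MM3 : HardI MM3 := by
  refine (hardPr_SAT3b.trans (Pr' := fun _ => True) (Q := MM3) ins_poly (fun _ _ => trivial)
    (fun φ hφ => ?_)).toHardI
  rw [gr_correct φ hφ.2.1, ins, mm3_iff]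

end Pool.Agent.W956.MM
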